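import Pool.Agent.helper3.XT.Spec

/-!
# Project xt, row PCK: dense relations contain a subdivided `K_(3,3)`
-/

set_option autoImplicit false

namespace Pool.Agent.XT

open Finset SimpleGraph

/-- common points of two lines -/
private def PCK_com {n : ℕ} (T : FS n) (c c' : Fin n) : Finset (Fin n) :=
  Finset.univ.filter (fun x => (c, x) ∈ T ∧ (c', x) ∈ T)

private lemma PCK_com_symm {n : ℕ} (T : FS n) (c c' : Fin n) : PCK_com T c c' = PCK_com T c' c := by
  unfold PCK_com
  ext x
  simp only [mem_filter, mem_univ, true_and]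
  tauto

private def PCK_S {n : ℕ} (T : FS n) (x : Fin n) : Finset (Fin n) :=
  Finset.univ.filter (fun c => (c, x) ∈ T)

/-- light pairs of lines through `x` -/
private def PCK_L {n : ℕ} (T : FS n) (x : Fin n) : Finset (Fin n × Fin n) :=
  Finset.univ.filter (fun q => ((q.1, x) ∈ T ∧ (q.2, x) ∈ T) ∧ q.1 ≠ q.2 ∧ #(PCK_com T q.1 q.2) ≤ 8)

private lemma PCK_sumS {n : ℕ} (T : FS n) : ∑ x, #(PCK_S T x) = #T := by
  have h1 : #T = ∑ p : Fin n × Fin n, if p ∈ T then 1 else 0 := by
    rw [← Finset.card_filter, Finset.filter_mem_eq_inter, Finset.univ_inter]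
  rw [h1, Fintype.sum_prod_type_right]
  refine Finset.sum_congr rfl fun x _ => ?_
  unfold PCK_S
  rw [Finset.card_filter]

private lemma PCK_sumL {n : ℕ} (T : FS n) : ∑ x, #(PCK_L T x) ≤ 8 * n ^ 2 := by
  have h1 : ∑ x, #(PCK_L T x) = ∑ q : Fin n × Fin n, ∑ x, if (((q.1, x) ∈ T ∧ (q.2, x) ∈ T) ∧ q.1 ≠ q.2 ∧ #(PCK_com T q.1 q.2) ≤ 8) then 1 else 0 := by
    rw [Finset.sum_comm]
    refine Finset.sum_congr rfl fun x _ => ?_
    unfold PCK_L
    rw [Finset.card_filter]
  rw [h1]
  have h2 : ∀ q ∈ (Finset.univ : Finset (Fin n × Fin n)), (∑ x, if (((q.1, x) ∈ T ∧ (q.2, x) ∈ T) ∧ q.1 ≠ q.2 ∧ #(PCK_com T q.1 q.2) ≤ 8) then 1 else 0) ≤ 8 := by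
    intro q _
    by_cases hq : q.1 ≠ q.2 ∧ #(PCK_com T q.1 q.2) ≤ 8
    · refine le_trans (le_of_eq ?_) hq.2
      have e : #(PCK_com T q.1 q.2) = ∑ x, if ((q.1, x) ∈ T ∧ (q.2, x) ∈ T) then 1 else 0 := by
        unfold PCK_com
        rw [Finset.card_filter]
      refine Eq.trans ?_ e.symm
      refine Finset.sum_congr rfl fun x _ => ?_
      by_cases hx : (q.1, x) ∈ T ∧ (q.2, x) ∈ T
      · rw [if_pos hx, if_pos ⟨hx, hq⟩]
      · rw [if_neg hx, if_neg (fun h => hx h.1)]
    · refine le_trans (le_of_eq ?_) (Nat.zero_le 8)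
      refine Finset.sum_eq_zero fun x _ => ?_
      rw [if_neg]
      tauto
  refine (Finset.sum_le_card_nsmul _ _ _ h2).trans (le_of_eq ?_)
  rw [Finset.card_univ, Fintype.card_prod, Fintype.card_fin, smul_eq_mul]
  ring

private lemma PCK_ex {n : ℕ} (T : FS n) (h : 135 * n ^ 3 < #T ^ 2) :
    ∃ x, 15 * (#(PCK_L T x) + #(PCK_S T x)) < #(PCK_S T x) ^ 2 := by
  by_contra hne
  push Not at hne
  have h1 : (#T) ^ 2 ≤ n * ∑ x, #(PCK_S T x) ^ 2 := by
    rw [← PCK_sumS T]
    have := sq_sum_le_card_mul_sum_sq (s := (Finset.univ : Finset (Fin n))) (f := fun x => #(PCK_S T x))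
    simpa using this
  have h2 : ∑ x, #(PCK_S T x) ^ 2 ≤ ∑ x, 15 * (#(PCK_L T x) + #(PCK_S T x)) :=
    Finset.sum_le_sum fun x _ => hne x
  rw [← Finset.mul_sum, Finset.sum_add_distrib, PCK_sumS T] at h2
  have h3 := PCK_sumL T
  have h4 : #T ≤ n ^ 2 := by
    have := Finset.card_le_univ T
    rw [Fintype.card_prod, Fintype.card_fin] at this
    nlinarith
  have h5 : ∑ x, #(PCK_S T x) ^ 2 ≤ 135 * n ^ 2 := by omega
  have h6 : (#T) ^ 2 ≤ n * (135 * n ^ 2) := h1.trans (Nat.mul_le_mul_left n h5)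
  have h7 : n * (135 * n ^ 2) = 135 * n ^ 3 := by ring
  omega

open Classical in
/-- the graph of the pairs which are not light -/
private def PCK_G {n : ℕ} (T : FS n) (x : Fin n) : SimpleGraph {c // c ∈ PCK_S T x} where
  Adj c c' := c ≠ c' ∧ 9 ≤ #(PCK_com T c.1 c'.1)
  symm := ⟨fun c c' h => ⟨h.1.symm, by rw [PCK_com_symm]; exact h.2⟩⟩
  loopless := ⟨fun c h => h.1 rfl⟩

private lemma PCK_clique {n : ℕ} (T : FS n) (x : Fin n)
    (h : 15 * (#(PCK_L T x) + #(PCK_S T x)) < #(PCK_S T x) ^ 2) : ¬ (PCK_G T x).CliqueFree 6 := by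
  classical
  intro cf
  obtain ⟨H, _, maxH⟩ := exists_isTuranMaximal (V := {c // c ∈ PCK_S T x}) (r := 5) (by norm_num)
  have h1 : #(PCK_G T x).edgeFinset ≤ #H.edgeFinset := maxH.2 cf
  rw [((isTuranMaximal_iff_nonempty_iso_turanGraph (by norm_num)).mp maxH).some.card_edgeFinset_eq] at h1
  have h2 := mul_card_edgeFinset_turanGraph_le (n := Fintype.card {c // c ∈ PCK_S T x}) (r := 5)
  have hV : Fintype.card {c // c ∈ PCK_S T x} = #(PCK_S T x) := Fintype.card_coe _
  rw [hV] at h2 h1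
  -- ordered pairs
  have h3 : 2 * #(PCK_G T x).edgeFinset
      = #(Finset.univ.filter (fun q : {c // c ∈ PCK_S T x} × {c // c ∈ PCK_S T x} => (PCK_G T x).Adj q.1 q.2)) := by
    rw [← sum_degrees_eq_twice_card_edges, Finset.card_filter, Fintype.sum_prod_type]
    refine Finset.sum_congr rfl fun v _ => ?_
    rw [← card_neighborFinset_eq_degree, neighborFinset_eq_filter, Finset.card_filter]
  have h4 := Finset.card_filter_add_card_filter_not (s := (Finset.univ : Finset ({c // c ∈ PCK_S T x} × {c // c ∈ PCK_S T x})))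
    (fun q => (PCK_G T x).Adj q.1 q.2)
  rw [Finset.card_univ, Fintype.card_prod, hV] at h4
  have h5 : #(Finset.univ.filter (fun q : {c // c ∈ PCK_S T x} × {c // c ∈ PCK_S T x} => ¬ (PCK_G T x).Adj q.1 q.2))
      ≤ #(PCK_L T x) + #(PCK_S T x) := by
    have e1 : Finset.univ.filter (fun q : {c // c ∈ PCK_S T x} × {c // c ∈ PCK_S T x} => ¬ (PCK_G T x).Adj q.1 q.2)
        ⊆ (Finset.univ.filter (fun q : {c // c ∈ PCK_S T x} × {c // c ∈ PCK_S T x} => (q.1.1, q.2.1) ∈ PCK_L T x))
          ∪ (Finset.univ : Finset {c // c ∈ PCK_S T x}).image (fun c => (c, c)) := by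
      intro q hq
      simp only [mem_filter, mem_univ, true_and] at hq
      rw [mem_union, mem_filter, mem_image]
      by_cases hqq : q.1 = q.2
      · right
        exact ⟨q.1, mem_univ _, by rw [Prod.ext_iff]; exact ⟨rfl, hqq⟩⟩
      · left
        refine ⟨mem_univ _, ?_⟩
        have a1 := q.1.2
        have a2 := q.2.2
        unfold PCK_S at a1 a2
        unfold PCK_L
        simp only [mem_filter, mem_univ, true_and] at a1 a2 ⊢
        refine ⟨⟨a1, a2⟩, fun hc => hqq (Subtype.ext hc), ?_⟩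
        by_contra hc
        exact hq ⟨hqq, by omega⟩
    refine (Finset.card_le_card e1).trans ((Finset.card_union_le _ _).trans ?_)
    refine Nat.add_le_add ?_ ?_
    · refine Finset.card_le_card_of_injOn (fun q => (q.1.1, q.2.1)) ?_ ?_
      · intro q hq
        simp only [coe_filter, mem_univ, true_and, Set.mem_ofPred_eq] at hq
        exact hq
      · intro q _ q' _ hqq
        rw [Prod.ext_iff] at hqq
        exact Prod.ext (Subtype.ext hqq.1) (Subtype.ext hqq.2)
    · refine Finset.card_image_le.trans ?_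
      rw [Finset.card_univ, hV]
  have h6 : #(PCK_S T x) * #(PCK_S T x) = #(PCK_S T x) ^ 2 := by ring
  omega

private lemma PCK_pick {n : ℕ} (t : Fin 3 × Fin 3 → Finset (Fin n)) (ht : ∀ p, 9 ≤ #(t p)) :
    ∃ x : Fin 3 × Fin 3 → Fin n, Function.Injective x ∧ ∀ p, x p ∈ t p := by
  refine (Finset.all_card_le_biUnion_card_iff_exists_injective t).mp fun s => ?_
  rcases s.eq_empty_or_nonempty with rfl | ⟨p, hp⟩
  · simp
  · have h1 : #s ≤ 9 := by
      have := Finset.card_le_univ s
      simpa using this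
    have h2 : #(t p) ≤ #(s.biUnion t) := Finset.card_le_card (Finset.subset_biUnion_of_mem t hp)
    have := ht p
    omega

/-- **PCK** (project xt) -/
theorem PCK : PCK_stmt := by
  intro n T hT
  obtain ⟨x, hx⟩ := PCK_ex T hT
  have e := topEmbeddingOfNotCliqueFree (PCK_clique T x hx)
  have hadj : ∀ i j : Fin 6, i ≠ j → 9 ≤ #(PCK_com T (e i).1 (e j).1) := by
    intro i j hij
    have : (PCK_G T x).Adj (e i) (e j) := e.map_rel_iff.mpr hij
    exact this.2
  have hinj : ∀ i j : Fin 6, (e i).1 = (e j).1 → i = j := fun i j h => e.injective (Subtype.ext h)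
  obtain ⟨y, hy1, hy2⟩ := PCK_pick (fun p : Fin 3 × Fin 3 =>
    PCK_com T (e (Fin.castAdd 3 p.1)).1 (e (Fin.natAdd 3 p.2)).1) (fun p => by
      refine hadj _ _ fun h => ?_
      have := congrArg Fin.val h
      simp only [Fin.val_castAdd, Fin.val_natAdd] at this
      omega)
  refine ⟨fun i => (e (Fin.castAdd 3 i)).1, fun j => (e (Fin.natAdd 3 j)).1, y, ?_, hy1, ?_⟩
  · rintro (i | i) (j | j) h
    · have := hinj _ _ h
      rw [Fin.castAdd_injective _ _ this]
    · have := congrArg Fin.val (hinj _ _ h)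
      simp only [Fin.val_castAdd, Fin.val_natAdd] at this
      omega
    · have := congrArg Fin.val (hinj _ _ h)
      simp only [Fin.val_castAdd, Fin.val_natAdd] at this
      omega
    · have := hinj _ _ h
      rw [Fin.natAdd_injective _ _ this]
  · intro i j
    have := hy2 (i, j)
    unfold PCK_com at this
    simp only [mem_filter, mem_univ, true_and] at this
    exact this

end Pool.Agent.XT
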